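import Pool.Agent.H32.N6.Final
import Pool.Agent.H34.N6V.TargetsN

/-!
# The theorem for two quadratic forms with separable discriminant
-/

set_option autoImplicit false

open Polynomial NumberField Matrix Pool.Agent.H32.QC Pool.Agent.H34.N6 Pool.Agent.H34.N6V
  Pool.Agent.H32.N6

namespace Pool.Agent.H32.N6V

theorem pf_MAI2 (hNF : T_NF2) (hCORE : T_COR2) : T_MAI2 := by
  intro k _ _ A B hA hB hsep hdeg hNV hloc
  obtain ⟨P, D, Q, c, hPm, hPn, hPs, hPD, hNVP, hsq, hc, hQ, h1, h0⟩ :=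
    hNF k A B hA hB hsep hdeg hNV
  have h3 : LocCZ (gA P D 0) (gA P D 1) := by
    intro w
    have h4 := hloc w
    rw [← h1, ← h0]
    cases w with
    | inl v => exact map_cz (ic v) hQ hc h4
    | inr φ => exact map_cz φ hQ hc h4
  have h5 := hCORE k P D hPm hPn hPs hPD hNVP hsq h3
  rw [← h1, ← h0] at h5
  exact cz_swap ((cz_iff hQ hc).1 h5)

end Pool.Agent.H32.N6V
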