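import Pool.Agent.H32.N6V.Smo
import Pool.Agent.H32.N6V.Mai

/-!
# Two quadrics in `ℙ⁶`: the statement for polynomials, separable discriminant
-/

set_option autoImplicit false

open Polynomial NumberField IsDedekindDomain Matrix Pool.Agent.H32.QC Pool.Agent.H34.N6
  Pool.Agent.H34.N6V Pool.Agent.H32.N6

namespace Pool.Agent.H32.N6V

open Pool.Agent.H32.SAB (hes T_HES)

/-- smooth intersections have a separable discriminant -/
theorem sep_poly (hHES : T_HES) (K : Type) [Field K] [CharZero K]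
    (f₁ f₂ : MvPolynomial (Fin 7) K) (h1 : f₁.IsHomogeneous 2) (h2 : f₂.IsHomogeneous 2)
    (hdeg : ((hes f₁).map (C : K →+* K[X]) -
      (X : K[X]) • (hes f₂).map (C : K →+* K[X])).det.natDegree = 7)
    (hsm : ∀ x : Fin 7 → AlgebraicClosure K, x ≠ 0 →
      MvPolynomial.eval₂ (algebraMap K (AlgebraicClosure K)) x f₁ = 0 →
      MvPolynomial.eval₂ (algebraMap K (AlgebraicClosure K)) x f₂ = 0 →
      LinearIndependent (AlgebraicClosure K)
        ![fun i => MvPolynomial.eval₂ (algebraMap K (AlgebraicClosure K)) x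
            (MvPolynomial.pderiv i f₁),
          fun i => MvPolynomial.eval₂ (algebraMap K (AlgebraicClosure K)) x
            (MvPolynomial.pderiv i f₂)]) :
    ((hes f₁).map (C : K →+* K[X]) -
      (X : K[X]) • (hes f₂).map (C : K →+* K[X])).det.Separable := by
  have hA := hHES K 7 f₁ h1
  have hB := hHES K 7 f₂ h2
  have hdet : (hes f₂).det ≠ 0 := Pool.Agent.H32.SABP.det_lead hdeg
  refine disc_sep (algebraMap K (AlgebraicClosure K)) hA.1 hB.1 hdet fun x hx ha hb => ?_
  have h2E : (2 : AlgebraicClosure K) ≠ 0 := two_ne_zero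
  have ha' : MvPolynomial.eval₂ (algebraMap K (AlgebraicClosure K)) x f₁ = 0 := by
    have h3 := (hA.2 _ (algebraMap K (AlgebraicClosure K)) x).1
    rw [ha] at h3
    exact (mul_eq_zero.1 h3.symm).resolve_left h2E
  have hb' : MvPolynomial.eval₂ (algebraMap K (AlgebraicClosure K)) x f₂ = 0 := by
    have h3 := (hB.2 _ (algebraMap K (AlgebraicClosure K)) x).1
    rw [hb] at h3
    exact (mul_eq_zero.1 h3.symm).resolve_left h2E
  have h5 := hsm x hx ha' hb'
  have h6 : ((hes f₁).map (algebraMap K (AlgebraicClosure K))) *ᵥ x = fun i =>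
      MvPolynomial.eval₂ (algebraMap K (AlgebraicClosure K)) x (MvPolynomial.pderiv i f₁) :=
    funext fun i => (hA.2 _ (algebraMap K (AlgebraicClosure K)) x).2 i
  have h7 : ((hes f₂).map (algebraMap K (AlgebraicClosure K))) *ᵥ x = fun i =>
      MvPolynomial.eval₂ (algebraMap K (AlgebraicClosure K)) x (MvPolynomial.pderiv i f₂) :=
    funext fun i => (hB.2 _ (algebraMap K (AlgebraicClosure K)) x).2 i
  rw [h6, h7]
  exact h5

/-- the Hasse principle, no vertical class -/
theorem hasse2 (hHES : T_HES) (hMAI2 : T_MAI2) (K : Type) [Field K] [NumberField K]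
    (f₁ f₂ : MvPolynomial (Fin 7) K) (h1 : f₁.IsHomogeneous 2) (h2 : f₂.IsHomogeneous 2)
    (hdeg : ((hes f₁).map (C : K →+* K[X]) -
      (X : K[X]) • (hes f₂).map (C : K →+* K[X])).det.natDegree = 7)
    (hsm : ∀ x : Fin 7 → AlgebraicClosure K, x ≠ 0 →
      MvPolynomial.eval₂ (algebraMap K (AlgebraicClosure K)) x f₁ = 0 →
      MvPolynomial.eval₂ (algebraMap K (AlgebraicClosure K)) x f₂ = 0 →
      LinearIndependent (AlgebraicClosure K)
        ![fun i => MvPolynomial.eval₂ (algebraMap K (AlgebraicClosure K)) x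
            (MvPolynomial.pderiv i f₁),
          fun i => MvPolynomial.eval₂ (algebraMap K (AlgebraicClosure K)) x
            (MvPolynomial.pderiv i f₂)])
    (hNV : NVM (hes f₁) (hes f₂))
    (hR : ∀ φ : K →+* ℝ, ∃ x : Fin 7 → ℝ, x ≠ 0 ∧
      MvPolynomial.eval₂ φ x f₁ = 0 ∧ MvPolynomial.eval₂ φ x f₂ = 0)
    (hF : ∀ v : HeightOneSpectrum (𝓞 K), ∃ x : Fin 7 → v.adicCompletion K, x ≠ 0 ∧
      MvPolynomial.eval₂ (algebraMap K (v.adicCompletion K)) x f₁ = 0 ∧
      MvPolynomial.eval₂ (algebraMap K (v.adicCompletion K)) x f₂ = 0) :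
    ∃ x : Fin 7 → K, x ≠ 0 ∧ MvPolynomial.eval x f₁ = 0 ∧ MvPolynomial.eval x f₂ = 0 := by
  have h2K : (2 : K) ≠ 0 := two_ne_zero
  have hloc : LocCZ (hes f₁) (hes f₂) := by
    intro w
    cases w with
    | inl v => exact cz_of_poly hHES h1 h2 (ic v) (hF v)
    | inr φ => exact cz_of_poly hHES h1 h2 φ (hR φ)
  exact poly_of_cz hHES h2K h1 h2 (hMAI2 K (hes f₁) (hes f₂) (hHES K 7 f₁ h1).1
    (hHES K 7 f₂ h2).1 (sep_poly hHES K f₁ f₂ h1 h2 hdeg hsm) hdeg hNV hloc)

/-- an irreducible discriminant has no proper factors -/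
theorem nv_of_irr {k : Type} [Field k] {A B : Matrix (Fin 7) (Fin 7) k}
    (h : Irreducible (A.map (C : k →+* k[X]) - (X : k[X]) • B.map (C : k →+* k[X])).det) :
    NVM A B := by
  intro Q R hQ hR hQ1 hR1 hass
  exfalso
  have h1 : Irreducible (Q * R) := hass.symm.irreducible h
  rcases of_irreducible_mul h1 with h2 | h2
  · exact hQ1 (hQ.eq_one_of_isUnit h2)
  · exact hR1 (hR.eq_one_of_isUnit h2)

end Pool.Agent.H32.N6V
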