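import Pool.Agent.H32.N6.NF
import Pool.Agent.H32.N6.Cyc
import Pool.Agent.H32.SABP.NFM
import Pool.Agent.H16.SAB.LAM
import Pool.Agent.H34.N6V.TargetsN

/-!
# The normal form of a pencil with separable discriminant
-/

set_option autoImplicit false

open Polynomial Matrix Pool.Agent.H34.N6 Pool.Agent.H34.N6V Pool.Agent.H32.N6

namespace Pool.Agent.H32.N6V

section

variable {F : Type} [Field F]

/-- if the second form is nondegenerate, `D` is prime to `P` -/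
theorem coprime_of_det {P D : F[X]} (hP : P.Monic) (h7 : P.natDegree = 7)
    (hdet : (gA P D 0).det ≠ 0) : IsCoprime P D := by
  classical
  by_contra hcon
  rw [← EuclideanDomain.gcd_isUnit_iff] at hcon
  set E := EuclideanDomain.gcd P D with hE
  obtain ⟨R, hR⟩ := EuclideanDomain.gcd_dvd_left P D
  obtain ⟨D', hD'⟩ := EuclideanDomain.gcd_dvd_right P D
  rw [← hE] at hR hD'
  have hR0 : R ≠ 0 := by
    rintro rfl
    rw [mul_zero] at hR
    exact hP.ne_zero hR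
  have hE0 : E ≠ 0 := by
    intro h
    rw [h, zero_mul] at hR
    exact hP.ne_zero hR
  have hdE : E.natDegree ≠ 0 := by
    intro h
    apply hcon
    rw [Polynomial.isUnit_iff_degree_eq_zero, degree_eq_natDegree hE0, h]
    rfl
  have hdR : R.natDegree ≤ 6 := by
    have h1 := congrArg natDegree hR
    rw [natDegree_mul hE0 hR0, h7] at h1
    omega
  have hx : gA P D 0 *ᵥ cf R = 0 := by
    funext i
    have h1 := gA_bilin P D 0 (Pi.single i 1) (cf R)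
    rw [single_one_dotProduct] at h1
    rw [h1, Pi.zero_apply, pol_cf hdR, pow_zero, mul_one]
    apply lam_dvd hP
    rw [hD']
    refine ⟨D' * pol (Pi.single i 1), ?_⟩
    conv_rhs => rw [hR]
    ring
  apply hdet
  apply Matrix.exists_mulVec_eq_zero_iff.1
  refine ⟨cf R, ?_, hx⟩
  intro h
  apply hR0
  rw [← pol_cf hdR, h]
  exact pol_eq_zero.2 rfl

theorem lam_eq {P : F[X]} (hn : P.natDegree = 7) (g : F[X]) :
    Pool.Agent.H32.SAB.lam P g = lam P g := by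
  unfold Pool.Agent.H32.SAB.lam lam
  rw [hn]

theorem nf2_aux {P D : F[X]} {A B Q : Matrix (Fin 7) (Fin 7) F} (hPm : P.Monic)
    (hPn : P.natDegree = 7) (hQ : Q.det ≠ 0) (hB : B.det ≠ 0)
    (h1 : Qᵀ * A * Q = gA P D 1) (h0 : Qᵀ * B * Q = gA P D 0) :
    ∃ (D : F[X]) (Q : Matrix (Fin 7) (Fin 7) F) (c : F),
    IsCoprime P D ∧ IsSquare (-(gA P D 0).det) ∧ c ≠ 0 ∧ IsUnit Q.det ∧
    c • (Qᵀ * A * Q) = gA P D 1 ∧ c • (Qᵀ * B * Q) = gA P D 0 := by
  have hg : (gA P D 0).det ≠ 0 := by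
    rw [← h0, Matrix.det_mul, Matrix.det_mul, Matrix.det_transpose]
    exact mul_ne_zero (mul_ne_zero hQ hB) hQ
  have hD : IsCoprime P D := coprime_of_det hPm hPn hg
  have hs : -(gA P D 0).det ≠ 0 := neg_ne_zero.2 hg
  refine ⟨C (-(gA P D 0).det) * D, Q, -(gA P D 0).det, ?_, ?_, hs,
    isUnit_iff_ne_zero.2 hQ, ?_, ?_⟩
  · exact Pool.Agent.H32.SABP.coprime_scale hD hs
  · rw [gA_scale, det_smul7]
    exact sq_aux _
  · rw [gA_scale, ← h1]
  · rw [gA_scale, ← h0]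

theorem nf2_gen {A B M : Matrix (Fin 7) (Fin 7) F} {P : F[X]} {v : Fin 7 → F}
    (hPM : M.charpoly = P) (hMA : B * M = A) (hs : ∀ i : ℕ, (M ^ i)ᵀ * B = B * M ^ i)
    (hPm : P.Monic) (hPn : P.natDegree = 7) :
    ∃ D : F[X], (Matrix.of fun i j : Fin 7 => ((M ^ (j : ℕ)) *ᵥ v) i)ᵀ * A *
        (Matrix.of fun i j : Fin 7 => ((M ^ (j : ℕ)) *ᵥ v) i) = gA P D 1 ∧
      (Matrix.of fun i j : Fin 7 => ((M ^ (j : ℕ)) *ᵥ v) i)ᵀ * B *
        (Matrix.of fun i j : Fin 7 => ((M ^ (j : ℕ)) *ᵥ v) i) = gA P D 0 := by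
  obtain ⟨hL1, hL2, hL3, hL4, hL5, hL6⟩ := Pool.Agent.H16.SAB.pf_LAM F P hPm hPn
  have hl : ∀ g, Pool.Agent.H32.SABP.lf B M v (P * g) = 0 := by
    intro g
    have h := Pool.Agent.H32.SABP.lf_char B M v g
    rw [hPM] at h
    exact h
  obtain ⟨D0, hD0⟩ := hL6 (Pool.Agent.H32.SABP.lf B M v) hl
  refine ⟨D0, ?_, ?_⟩
  · ext i j
    rw [← hMA, Pool.Agent.H32.SABP.gram_A1 hs v, hD0, lam_eq hPn]
    rfl
  · ext i j
    rw [Pool.Agent.H32.SABP.gram_A2 hs v, hD0, lam_eq hPn]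
    rfl

theorem ass_char {n : ℕ} {A B : Matrix (Fin n) (Fin n) F} (h2 : B.det ≠ 0) :
    Associated (B⁻¹ * A).charpoly
      (A.map (C : F →+* F[X]) - (X : F[X]) • B.map (C : F →+* F[X])).det := by
  have hPe := Pool.Agent.H32.SABP.charpoly_eq (A1 := A) h2
  have hc : IsUnit (C ((B.det)⁻¹) * (-1) ^ n : F[X]) := by
    refine IsUnit.mul ?_ ((isUnit_one.neg).pow n)
    rw [isUnit_C, isUnit_iff_ne_zero]
    exact inv_ne_zero h2
  refine Associated.symm ⟨hc.unit, ?_⟩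
  rw [IsUnit.unit_spec]
  have h5 : (C ((B.det)⁻¹) : F[X]) * C B.det = 1 := by
    rw [← C_mul, inv_mul_cancel₀ h2, C_1]
  linear_combination -(C ((B.det)⁻¹) : F[X]) * hPe + (B⁻¹ * A).charpoly * h5

theorem char_sep {n : ℕ} {A B : Matrix (Fin n) (Fin n) F} (h2 : B.det ≠ 0)
    (hsep : (A.map (C : F →+* F[X]) - (X : F[X]) • B.map (C : F →+* F[X])).det.Separable) :
    (B⁻¹ * A).charpoly.Separable := hsep.of_dvd (ass_char h2).dvd

theorem nf2_basic [CharZero F] {A B : Matrix (Fin 7) (Fin 7) F} (hA : A.IsSymm) (hB : B.IsSymm)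
    (hsep : (A.map (C : F →+* F[X]) - (X : F[X]) • B.map (C : F →+* F[X])).det.Separable)
    (hdeg : (A.map (C : F →+* F[X]) - (X : F[X]) • B.map (C : F →+* F[X])).det.natDegree = 7) :
    ∃ (P D : F[X]) (Q : Matrix (Fin 7) (Fin 7) F) (c : F), P.Monic ∧ P.natDegree = 7 ∧
      P.Separable ∧ IsCoprime P D ∧
      Associated P (A.map (C : F →+* F[X]) - (X : F[X]) • B.map (C : F →+* F[X])).det ∧
      IsSquare (-(gA P D 0).det) ∧ c ≠ 0 ∧ IsUnit Q.det ∧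
      c • (Qᵀ * A * Q) = gA P D 1 ∧ c • (Qᵀ * B * Q) = gA P D 0 := by
  have h2 : B.det ≠ 0 := Pool.Agent.H32.SABP.det_lead hdeg
  have hass := ass_char (A := A) h2
  have hPm : (B⁻¹ * A).charpoly.Monic := Matrix.charpoly_monic _
  have hPn : (B⁻¹ * A).charpoly.natDegree = 7 := by
    rw [Matrix.charpoly_natDegree_eq_dim, Fintype.card_fin]
  have hPs : (B⁻¹ * A).charpoly.Separable := char_sep h2 hsep
  have hMA : B * (B⁻¹ * A) = A := by
    rw [Matrix.mul_nonsing_inv_cancel_left _ _ (isUnit_iff_ne_zero.2 h2)]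
  obtain ⟨v, hv⟩ := exists_cyc hPs
  have hdet := cyc_det hv
  obtain ⟨D0, hg1, hg0⟩ := nf2_gen (v := v) rfl hMA
    (Pool.Agent.H32.SABP.self_adj hA hB h2) hPm hPn
  obtain ⟨D, Q, c, hD, hsq, hc, hQ, h1, h0⟩ := nf2_aux hPm hPn hdet h2 hg1 hg0
  exact ⟨_, D, Q, c, hPm, hPn, hPs, hD, hass, hsq, hc, hQ, h1, h0⟩

end

end Pool.Agent.H32.N6V
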