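import Pool.Agent.H32.N6V.NF2

/-!
# The adjugate of the pencil in normal form
-/

set_option autoImplicit false

open Polynomial Matrix Pool.Agent.H34.N6 Pool.Agent.H34.N6V Pool.Agent.H32.N6

namespace Pool.Agent.H32.N6V

section gen

variable {F : Type} [Field F] {n : ℕ}

/-- the pencil over the polynomial ring -/
noncomputable def fX (A B : Matrix (Fin n) (Fin n) F) : Matrix (Fin n) (Fin n) F[X] :=
  A.map (C : F →+* F[X]) - (X : F[X]) • B.map (C : F →+* F[X])

/-- the bilinear form of the adjugate -/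
noncomputable def bf (A B : Matrix (Fin n) (Fin n) F) (x y : Fin n → F) : F[X] :=
  (fun i => C (x i)) ⬝ᵥ ((fX A B).adjugate *ᵥ fun i => C (y i))

theorem eval_fX (A B : Matrix (Fin n) (Fin n) F) (t : F) :
    (Polynomial.evalRingHom t).mapMatrix (fX A B) = A - t • B := by
  ext i j
  rw [RingHom.mapMatrix_apply, Matrix.map_apply]
  unfold fX
  rw [Matrix.sub_apply, Matrix.smul_apply, Matrix.map_apply, Matrix.map_apply, map_sub,
    smul_eq_mul, map_mul, coe_evalRingHom, eval_C, eval_C, eval_X, Matrix.sub_apply,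
    Matrix.smul_apply, smul_eq_mul]

theorem eval_adj (A B : Matrix (Fin n) (Fin n) F) (t : F) (i j : Fin n) :
    eval t ((fX A B).adjugate i j) = (A - t • B).adjugate i j := by
  rw [← eval_fX A B t, ← RingHom.map_adjugate, RingHom.mapMatrix_apply, Matrix.map_apply,
    coe_evalRingHom]

theorem eval_mv (A B : Matrix (Fin n) (Fin n) F) (y : Fin n → F) (t : F) (i : Fin n) :
    eval t (((fX A B).adjugate *ᵥ fun i => C (y i)) i) = ((A - t • B).adjugate *ᵥ y) i := by
  rw [Matrix.mulVec, Matrix.mulVec, dotProduct, dotProduct, eval_finsetSum]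
  refine Finset.sum_congr rfl fun j _ => ?_
  rw [eval_mul, eval_adj, eval_C]

theorem eval_bf (A B : Matrix (Fin n) (Fin n) F) (x y : Fin n → F) (t : F) :
    eval t (bf A B x y) = x ⬝ᵥ ((A - t • B).adjugate *ᵥ y) := by
  unfold bf
  rw [dotProduct, dotProduct, eval_finsetSum]
  refine Finset.sum_congr rfl fun j _ => ?_
  rw [eval_mul, eval_mv, eval_C]

theorem map_fX {E : Type} [Field E] (ι : F →+* E) (A B : Matrix (Fin n) (Fin n) F) :
    (Polynomial.mapRingHom ι).mapMatrix (fX A B) = fX (A.map ι) (B.map ι) := by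
  ext1 i j
  rw [RingHom.mapMatrix_apply, Matrix.map_apply]
  unfold fX
  rw [Matrix.sub_apply, Matrix.smul_apply, Matrix.map_apply, Matrix.map_apply, map_sub,
    smul_eq_mul, map_mul, coe_mapRingHom, map_C, map_C, map_X, Matrix.sub_apply,
    Matrix.smul_apply, smul_eq_mul, Matrix.map_apply, Matrix.map_apply, Matrix.map_apply,
    Matrix.map_apply]

theorem bf_map {E : Type} [Field E] (ι : F →+* E) (A B : Matrix (Fin n) (Fin n) F)
    (x y : Fin n → F) :
    (bf A B x y).map ι = bf (A.map ι) (B.map ι) (fun i => ι (x i)) (fun i => ι (y i)) := by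
  have h1 : ∀ i j, ((fX A B).adjugate i j).map ι = (fX (A.map ι) (B.map ι)).adjugate i j := by
    intro i j
    rw [← map_fX ι A B, ← RingHom.map_adjugate, RingHom.mapMatrix_apply, Matrix.map_apply,
      coe_mapRingHom]
  unfold bf
  rw [dotProduct, dotProduct, Polynomial.map_sum]
  refine Finset.sum_congr rfl fun i _ => ?_
  rw [Polynomial.map_mul, map_C, Matrix.mulVec, Matrix.mulVec, dotProduct, dotProduct,
    Polynomial.map_sum]
  congr 1
  refine Finset.sum_congr rfl fun j _ => ?_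
  rw [Polynomial.map_mul, map_C, h1]

/-- change of the basis -/
theorem bf_trans (A B Q : Matrix (Fin n) (Fin n) F) (c : F) (x y : Fin n → F) (t : F) :
    eval t (bf (c • (Qᵀ * A * Q)) (c • (Qᵀ * B * Q)) x y) =
      c ^ (n - 1) * eval t (bf A B (Q.adjugateᵀ *ᵥ x) (Q.adjugateᵀ *ᵥ y)) := by
  rw [eval_bf, eval_bf]
  have h1 : c • (Qᵀ * A * Q) - t • c • (Qᵀ * B * Q) = c • (Qᵀ * (A - t • B) * Q) := by
    rw [Matrix.mul_sub, Matrix.sub_mul, smul_sub, Matrix.mul_smul, Matrix.smul_mul,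
      smul_comm t c]
  rw [h1, Matrix.adjugate_smul, Fintype.card_fin, Matrix.adjugate_mul_distrib,
    Matrix.adjugate_mul_distrib, Matrix.smul_mulVec, dotProduct_smul, smul_eq_mul,
    ← Matrix.adjugate_transpose Q, ← Matrix.mulVec_mulVec, ← Matrix.mulVec_mulVec,
    dotProduct_mulVec x Q.adjugate, Matrix.mulVec_transpose Q.adjugate x]

theorem bf_symm {A B : Matrix (Fin n) (Fin n) F} (hA : A.IsSymm) (hB : B.IsSymm)
    (x y : Fin n → F) (t : F) : x ⬝ᵥ ((A - t • B).adjugate *ᵥ y) =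
      y ⬝ᵥ ((A - t • B).adjugate *ᵥ x) := by
  have h1 : ((A - t • B).adjugate)ᵀ = (A - t • B).adjugate := by
    rw [Matrix.adjugate_transpose, (hA.sub (hB.smul t)).eq]
  rw [dotProduct_mulVec, ← Matrix.mulVec_transpose, h1, dotProduct_comm]

end gen

section model

variable {E : Type} [Field E]

/-- the coefficients of the quotient by `X - t` -/
noncomputable def vt (P : E[X]) (t : E) : Fin 7 → E := cf (P /ₘ (X - C t))

theorem vt_deg {P : E[X]} (h7 : P.natDegree = 7) (t : E) :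
    (P /ₘ (X - C t)).natDegree ≤ 6 := by
  rw [natDegree_divByMonic P (monic_X_sub_C t), h7, natDegree_X_sub_C]

theorem pol_vt {P : E[X]} (h7 : P.natDegree = 7) (t : E) : pol (vt P t) = P /ₘ (X - C t) :=
  pol_cf (vt_deg h7 t)

theorem mul_vt (P : E[X]) (t : E) : (X - C t) * (P /ₘ (X - C t)) = P - C (eval t P) := by
  have h1 := modByMonic_add_div P (X - C t)
  rw [modByMonic_X_sub_C_eq_C_eval] at h1
  linear_combination h1

/-- a vector is determined by its products -/
theorem ext_dot {n : ℕ} {a b : Fin n → E} (h : ∀ y, y ⬝ᵥ a = y ⬝ᵥ b) : a = b := by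
  funext i
  have := h (Pi.single i 1)
  rw [single_one_dotProduct, single_one_dotProduct] at this
  exact this

theorem ft_vt {P D : E[X]} (hP : P.Monic) (h7 : P.natDegree = 7) (t : E) :
    ft P D t *ᵥ vt P t = (-(eval t P)) • (gA P D 0 *ᵥ Pi.single 0 1) := by
  apply ext_dot
  intro y
  rw [ft_bilin, dotProduct_smul, gA_bilin, pol_vt h7, smul_eq_mul, ← lam_C_mul]
  have h0 : pol (Pi.single 0 (1 : E)) = 1 := by
    rw [pol_single]
    rfl
  rw [h0, pow_zero]
  apply lam_congr hP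
  refine ⟨D * pol y, ?_⟩
  rw [C_neg]
  linear_combination D * pol y * mul_vt P t

theorem adj_pt {P D : E[X]} (hP : P.Monic) (h7 : P.natDegree = 7)
    (hdet : ∀ t : E, (ft P D t).det = -eval t P * (gA P D 0).det) (t : E) (i : Fin 7) :
    eval t P * ((ft P D t).adjugate *ᵥ (gA P D 0 *ᵥ Pi.single 0 1)) i =
      eval t P * ((gA P D 0).det * vt P t i) := by
  have h1 := congrArg (fun v => ((ft P D t).adjugate *ᵥ v) i) (ft_vt (D := D) hP h7 t)
  rw [Matrix.mulVec_mulVec, Matrix.adjugate_mul, Matrix.smul_mulVec, Matrix.one_mulVec,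
    Matrix.mulVec_smul, Pi.smul_apply, Pi.smul_apply, smul_eq_mul, smul_eq_mul, hdet t] at h1
  linear_combination h1

/-- the polynomial with values `vt P t i` -/
theorem exists_vt {P : E[X]} (h7 : P.natDegree = 7) (i : Fin 7) :
    ∃ V : E[X], ∀ t, eval t V = vt P t i := by
  refine ⟨∑ j ∈ Finset.Icc ((i : ℕ) + 1) P.natDegree, X ^ (j - ((i : ℕ) + 1)) * C (P.coeff j),
    fun t => ?_⟩
  have h1 := coeff_divByMonic_X_sub_C P t (i : ℕ)
  rw [← pol_vt h7, coeff_pol] at h1
  rw [h1, eval_finsetSum]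
  refine Finset.sum_congr rfl fun j _ => ?_
  rw [eval_mul, eval_pow, eval_X, eval_C]

theorem cancel_pt [Infinite E] {n : ℕ} (A B : Matrix (Fin n) (Fin n) E) {P V : E[X]}
    (hP : P ≠ 0) (d : E) (y : Fin n → E) (i : Fin n)
    (h : ∀ s, eval s P * ((A - s • B).adjugate *ᵥ y) i = eval s P * (d * eval s V)) (t : E) :
    ((A - t • B).adjugate *ᵥ y) i = d * eval t V := by
  have h1 : P * ((fX A B).adjugate *ᵥ fun j => C (y j)) i = P * (C d * V) := by
    apply Polynomial.funext
    intro s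
    rw [eval_mul, eval_mv, eval_mul, eval_mul, eval_C]
    exact h s
  have h2 := mul_left_cancel₀ hP h1
  have h3 := congrArg (eval t) h2
  rw [eval_mv, eval_mul, eval_C] at h3
  exact h3

theorem adj_u0 [Infinite E] {P D : E[X]} (hP : P.Monic) (h7 : P.natDegree = 7)
    (hdet : ∀ t : E, (ft P D t).det = -eval t P * (gA P D 0).det) (t : E) (i : Fin 7) :
    ((ft P D t).adjugate *ᵥ (gA P D 0 *ᵥ Pi.single 0 1)) i = (gA P D 0).det * vt P t i := by
  obtain ⟨V, hV⟩ := exists_vt h7 i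
  have h1 := cancel_pt (gA P D 1) (gA P D 0) hP.ne_zero (gA P D 0).det
    (gA P D 0 *ᵥ Pi.single 0 1) i (V := V) (fun s => by
      rw [hV]
      exact adj_pt hP h7 hdet s i) t
  rw [hV] at h1
  exact h1

theorem u0_vt {P D : E[X]} (hP : P.Monic) (h7 : P.natDegree = 7) {α : E}
    (hα : eval α P = 0) : (gA P D 0 *ᵥ Pi.single 0 1) ⬝ᵥ vt P α = eval α D := by
  rw [dotProduct_comm, gA_bilin, pol_vt h7]
  have h0 : pol (Pi.single 0 (1 : E)) = 1 := by
    rw [pol_single]
    rfl
  rw [h0, pow_zero, mul_one, mul_one]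
  have h2 : P = (X - C α) * (P /ₘ (X - C α)) := by
    rw [mul_vt, hα, C_0, sub_zero]
  obtain ⟨D₁, hD₁⟩ := X_sub_C_dvd_sub_C_eval (a := α) (p := D)
  have h3 : lam P (D * (P /ₘ (X - C α))) = lam P (C (eval α D) * (P /ₘ (X - C α))) := by
    apply lam_congr hP
    refine ⟨D₁, ?_⟩
    rw [← sub_mul, hD₁]
    conv_rhs => rw [h2]
    ring
  have hq : (P /ₘ (X - C α)).Monic := by
    have h4 : (P /ₘ (X - C α)).leadingCoeff = P.leadingCoeff := by
      apply leadingCoeff_divByMonic_X_sub_C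
      rw [degree_eq_natDegree hP.ne_zero, h7]
      norm_num
    rw [Monic, h4]
    exact hP
  rw [h3, lam_C_mul, lam_of_lt hP, h7]
  · have h5 : (P /ₘ (X - C α)).natDegree = 6 := by
      rw [natDegree_divByMonic P (monic_X_sub_C α), h7, natDegree_X_sub_C]
    have h6 : (P /ₘ (X - C α)).coeff (7 - 1) = 1 := by
      have := hq.coeff_natDegree
      rw [h5] at this
      exact this
    rw [h6, mul_one]
  · apply Polynomial.degree_lt_degree
    rw [h7]
    have := vt_deg h7 α
    omega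

/-- the kernel of a singular member -/
theorem ker_vt {P D : E[X]} (hP : P.Monic) (h7 : P.natDegree = 7) (hD : IsCoprime P D) {α : E}
    (hα : eval α P = 0) {z : Fin 7 → E} (hz : ft P D α *ᵥ z = 0) :
    ∃ c : E, z = c • vt P α := by
  have h1 : P ∣ D * (X - C α) * pol z := by
    apply lam_nondeg hP h7
    intro j
    have h2 := ft_bilin P D α z (Pi.single j 1)
    have h3 : z ⬝ᵥ (ft P D α *ᵥ Pi.single j 1) = 0 := by
      rw [dotProduct_mulVec, ← Matrix.mulVec_transpose, (ft_symm P D α).eq, hz,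
        zero_dotProduct]
    rw [h3, pol_single] at h2
    exact h2.symm
  have h2 : P ∣ (X - C α) * pol z := by
    rw [mul_assoc] at h1
    exact hD.dvd_of_dvd_mul_left h1
  have h3 : P = (X - C α) * (P /ₘ (X - C α)) := by
    rw [mul_vt, hα, C_0, sub_zero]
  have h4 : (P /ₘ (X - C α)) ∣ pol z := by
    rw [h3] at h2
    have h5 : (X - C α) ≠ 0 := X_sub_C_ne_zero α
    have h6 := (mul_dvd_mul_iff_left h5).1 h2
    exact h6
  obtain ⟨q, hq⟩ := h4
  by_cases hz0 : pol z = 0
  · refine ⟨0, ?_⟩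
    rw [zero_smul]
    exact pol_eq_zero.1 hz0
  have hq0 : q ≠ 0 := by
    rintro rfl
    rw [mul_zero] at hq
    exact hz0 hq
  have hv0 : (P /ₘ (X - C α)) ≠ 0 := by
    intro h
    rw [h, zero_mul] at hq
    exact hz0 hq
  have h5 : (P /ₘ (X - C α)).natDegree = 6 := by
    rw [natDegree_divByMonic P (monic_X_sub_C α), h7, natDegree_X_sub_C]
  have h6 := congrArg natDegree hq
  rw [natDegree_mul hv0 hq0, h5] at h6
  have h8 := natDegree_pol z
  have h9 : q.natDegree = 0 := by omega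
  obtain ⟨c, hc⟩ := natDegree_eq_zero.1 h9
  refine ⟨c, ?_⟩
  apply pol_injective
  rw [pol_smul, pol_vt h7, hq, ← hc, mul_comm]

/-- the two values at a root -/
theorem at_root [Infinite E] {P D : E[X]} (hP : P.Monic) (h7 : P.natDegree = 7)
    (hD : IsCoprime P D)
    (hdet : ∀ t : E, (ft P D t).det = -eval t P * (gA P D 0).det) {α : E}
    (hα : eval α P = 0) (u : Fin 7 → E) :
    eval α (bf (gA P D 1) (gA P D 0) (gA P D 0 *ᵥ Pi.single 0 1) (gA P D 0 *ᵥ Pi.single 0 1)) =
      (gA P D 0).det * eval α D ∧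
    eval α (bf (gA P D 1) (gA P D 0) u u) *
      eval α (bf (gA P D 1) (gA P D 0) (gA P D 0 *ᵥ Pi.single 0 1)
        (gA P D 0 *ᵥ Pi.single 0 1)) =
      (eval α (bf (gA P D 1) (gA P D 0) u (gA P D 0 *ᵥ Pi.single 0 1))) ^ 2 := by
  set u₀ : Fin 7 → E := gA P D 0 *ᵥ Pi.single 0 1 with hu₀
  have hf : gA P D 1 - α • gA P D 0 = ft P D α := rfl
  have h0 : (ft P D α).adjugate *ᵥ u₀ = (gA P D 0).det • vt P α := by
    funext i
    rw [Pi.smul_apply, smul_eq_mul]
    exact adj_u0 hP h7 hdet α i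
  have hu : ∃ c : E, (ft P D α).adjugate *ᵥ u = c • vt P α := by
    apply ker_vt hP h7 hD hα
    rw [Matrix.mulVec_mulVec, Matrix.mul_adjugate, hdet, hα, neg_zero, zero_mul, zero_smul,
      Matrix.zero_mulVec]
  obtain ⟨c, hc⟩ := hu
  have hs := bf_symm (gA_symm P D 1) (gA_symm P D 0) u u₀ α
  rw [hf, h0, hc, dotProduct_smul, dotProduct_smul, smul_eq_mul, smul_eq_mul] at hs
  have hD' : u₀ ⬝ᵥ vt P α = eval α D := u0_vt hP h7 hα
  constructor
  · rw [eval_bf, hf, h0, dotProduct_smul, smul_eq_mul, hD']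
  · rw [eval_bf, eval_bf, eval_bf, hf, h0, hc, dotProduct_smul, dotProduct_smul,
      dotProduct_smul, smul_eq_mul, smul_eq_mul, smul_eq_mul]
    linear_combination (-(gA P D 0).det * (u ⬝ᵥ vt P α)) * hs

end model

end Pool.Agent.H32.N6V
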