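import Pool.Agent.H32.N6V.Adj
import Pool.Agent.H29.N6B.BDE

/-!
# The normal form with the condition on the factors
-/

set_option autoImplicit false

open Polynomial Matrix Pool.Agent.H34.N6 Pool.Agent.H34.N6V Pool.Agent.H32.N6

namespace Pool.Agent.H32.N6V

section res

variable {F : Type} [Field F]

theorem res_prod {E : Type} [Field E] [IsAlgClosed E] (ι : F →+* E) {Q : F[X]} (hQ : Q.Monic)
    (h : F[X]) :
    ι (Q.resultant h) = ((Q.map ι).roots.map fun α => eval α (h.map ι)).prod := by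
  have h1 := resultant_eq_prod_eval (Q.map ι) (h.map ι) h.natDegree natDegree_map_le
    (IsAlgClosed.splits _)
  rw [natDegree_map, resultant_map_map, (hQ.map ι).leadingCoeff, one_pow, one_mul] at h1
  exact h1

theorem res_mul_eq {E : Type} [Field E] [IsAlgClosed E] (ι : F →+* E) {Q a b w : F[X]}
    (hQ : Q.Monic)
    (h : ∀ α : E, eval α (Q.map ι) = 0 →
      eval α (a.map ι) * eval α (b.map ι) = (eval α (w.map ι)) ^ 2) :
    Q.resultant a * Q.resultant b = (Q.resultant w) ^ 2 := by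
  apply ι.injective
  rw [map_mul, map_pow, res_prod ι hQ, res_prod ι hQ, res_prod ι hQ, ← Multiset.prod_map_mul,
    ← Multiset.prod_map_pow]
  congr 1
  apply Multiset.map_congr rfl
  intro α hα
  exact h α (isRoot_of_mem_roots hα).eq_zero

theorem res_C_mul {Q h : F[X]} {r : F} (hr : r ≠ 0) :
    Q.resultant (C r * h) = r ^ Q.natDegree * Q.resultant h := by
  rw [natDegree_C_mul hr]
  exact resultant_C_mul_right _ _ _ _ r

theorem sq_div {a b c : F} (h : a * b = c ^ 2) (hb : b ≠ 0) (hs : IsSquare b) : IsSquare a := by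
  obtain ⟨r, hr⟩ := hs
  have hr0 : r ≠ 0 := by
    rintro rfl
    rw [mul_zero] at hr
    exact hb hr
  refine ⟨c / r, ?_⟩
  rw [hr] at h
  field_simp
  linear_combination h

end res

section

variable {F : Type} [Field F] {n : ℕ}

theorem dm_fun : @dm F _ = fun (A B : Matrix (Fin 7) (Fin 7) F) (u : Fin 7 → F) =>
    -((fun i => C (u i)) ⬝ᵥ
      ((A.map (C : F →+* F[X]) - (X : F[X]) • B.map (C : F →+* F[X])).adjugate *ᵥ
        fun i => C (u i)) : F[X]) := by
  delta dm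
  with_reducible rfl

theorem bf_eq (A B : Matrix (Fin 7) (Fin 7) F) (u : Fin 7 → F) : ((fun i => C (u i)) ⬝ᵥ
    ((A.map (C : F →+* F[X]) - (X : F[X]) • B.map (C : F →+* F[X])).adjugate *ᵥ
      fun i => C (u i))) = bf A B u u := rfl

theorem dm_eq (A B : Matrix (Fin 7) (Fin 7) F) (u : Fin 7 → F) :
    dm A B u = (-bf A B u u : F[X]) := by
  rw [dm_fun, ← bf_eq]

theorem bf_trans' [Infinite F] (A B Q : Matrix (Fin n) (Fin n) F) (c : F) (x y : Fin n → F)
    {m : ℕ} (hm : n - 1 = m) : bf (c • (Qᵀ * A * Q)) (c • (Qᵀ * B * Q)) x y =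
      C (c ^ m) * bf A B (Q.adjugateᵀ *ᵥ x) (Q.adjugateᵀ *ᵥ y) := by
  subst hm
  apply Polynomial.funext
  intro t
  rw [bf_trans, eval_mul, eval_C]

theorem adj_back {Q : Matrix (Fin n) (Fin n) F} (hQ : Q.det ≠ 0) (u : Fin n → F) :
    Q.adjugateᵀ *ᵥ (Q.det⁻¹ • (Qᵀ *ᵥ u)) = u := by
  rw [Matrix.mulVec_smul, Matrix.mulVec_mulVec, ← Matrix.transpose_mul, Matrix.mul_adjugate,
    Matrix.transpose_smul, Matrix.transpose_one, Matrix.smul_mulVec, Matrix.one_mulVec,
    smul_smul, inv_mul_cancel₀ hQ, one_smul]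

theorem sq_aux2 {E : Type} [Field E] [IsAlgClosed E] (ι : F →+* E) {Q D bu b0 w : F[X]} {g : F}
    (hQ : Q.Monic)
    (h1 : ∀ α : E, eval α (Q.map ι) = 0 → eval α (b0.map ι) = ι g * eval α (D.map ι))
    (h2 : ∀ α : E, eval α (Q.map ι) = 0 →
      eval α (bu.map ι) * eval α (b0.map ι) = (eval α (w.map ι)) ^ 2)
    (hg : IsSquare (-g)) (hg0 : g ≠ 0) (hr0 : Q.resultant D ≠ 0)
    (hr : IsSquare (Q.resultant D)) : IsSquare (Q.resultant (-bu)) := by
  have hg1 : -g ≠ 0 := neg_ne_zero.2 hg0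
  have h3 : Q.resultant (-bu) * Q.resultant (C (-g) * D) = (Q.resultant w) ^ 2 := by
    apply res_mul_eq ι hQ
    intro α hα
    rw [← h2 α hα, h1 α hα, Polynomial.map_neg, Polynomial.map_mul, map_C, eval_neg, eval_mul,
      eval_C, map_neg]
    ring
  rw [res_C_mul hg1] at h3
  refine sq_div h3 (mul_ne_zero (pow_ne_zero _ hg1) hr0) ?_
  exact (hg.pow _).mul hr

theorem sq_unscale {Q b b' : F[X]} {c : F} (hc : c ≠ 0) (h : b' = C (c ^ 6) * b)
    (hs : IsSquare (Q.resultant (-b'))) : IsSquare (Q.resultant (-b)) := by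
  have h1 : -b' = C (c ^ 6) * (-b) := by
    rw [h]
    ring
  rw [h1, res_C_mul (pow_ne_zero _ hc)] at hs
  obtain ⟨r, hr⟩ := hs
  have hc3 : (c ^ 3) ^ Q.natDegree ≠ 0 := pow_ne_zero _ (pow_ne_zero _ hc)
  refine ⟨r / (c ^ 3) ^ Q.natDegree, ?_⟩
  field_simp
  have h2 : (c ^ 6) ^ Q.natDegree = ((c ^ 3) ^ Q.natDegree) ^ 2 := by
    rw [← pow_mul, ← pow_mul, ← pow_mul]
    congr 1
    ring
  rw [h2] at hr
  linear_combination hr

theorem map_mulVec' {E : Type} [Field E] (ι : F →+* E) (M : Matrix (Fin n) (Fin n) F)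
    (x : Fin n → F) : (fun i => ι ((M *ᵥ x) i)) = M.map ι *ᵥ fun i => ι (x i) := by
  funext i
  exact RingHom.map_mulVec ι M x i

theorem map_single' {E : Type} [Field E] (ι : F →+* E) (j : Fin n) :
    (fun i => ι ((Pi.single j (1 : F) : Fin n → F) i)) = Pi.single j (1 : E) := by
  funext i
  by_cases h : i = j
  · rw [h, Pi.single_eq_same, Pi.single_eq_same, map_one]
  · rw [Pi.single_eq_of_ne h, Pi.single_eq_of_ne h, map_zero]

/-- the values at the roots over the algebraic closure -/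
theorem roots_aux {E : Type} [Field E] [Infinite E] (ι : F →+* E) {P D : F[X]} (hP : P.Monic)
    (h7 : P.natDegree = 7) (hD : IsCoprime P D) {α : E} (hα : eval α (P.map ι) = 0)
    (u : Fin 7 → F) :
    eval α ((bf (gA P D 1) (gA P D 0) (gA P D 0 *ᵥ Pi.single 0 1)
      (gA P D 0 *ᵥ Pi.single 0 1)).map ι) = ι (gA P D 0).det * eval α (D.map ι) ∧
    eval α ((bf (gA P D 1) (gA P D 0) u u).map ι) *
      eval α ((bf (gA P D 1) (gA P D 0) (gA P D 0 *ᵥ Pi.single 0 1)
        (gA P D 0 *ᵥ Pi.single 0 1)).map ι) =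
      (eval α ((bf (gA P D 1) (gA P D 0) u (gA P D 0 *ᵥ Pi.single 0 1)).map ι)) ^ 2 := by
  have hPE : (P.map ι).Monic := hP.map ι
  have h7E : (P.map ι).natDegree = 7 := by
    rw [natDegree_map]
    exact h7
  have hDE : IsCoprime (P.map ι) (D.map ι) := by
    have := hD.map (Polynomial.mapRingHom ι)
    rw [coe_mapRingHom] at this
    exact this
  have h0 : (fun i => ι ((gA P D 0 *ᵥ Pi.single 0 1) i)) =
      gA (P.map ι) (D.map ι) 0 *ᵥ Pi.single 0 1 := by
    rw [map_mulVec', map_single', gA_map hP]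
  have hdet : ι (gA P D 0).det = (gA (P.map ι) (D.map ι) 0).det := by
    rw [gA_map hP]
    exact RingHom.map_det ι _
  have h := at_root hPE h7E hDE
    (fun t => Pool.Agent.H29.N6B.pf_BDE E (P.map ι) (D.map ι) t hPE h7E) hα (fun i => ι (u i))
  rw [bf_map, bf_map, bf_map, h0, ← gA_map hP, ← gA_map hP, hdet]
  exact h

/-- the norms of the discriminants are squares if the norm of `D` is one, in the model -/
theorem model_sq {P D Q : F[X]} (hP : P.Monic) (h7 : P.natDegree = 7)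
    (hD : IsCoprime P D) (hsq : IsSquare (-(gA P D 0).det)) (hQ : Q.Monic) (hQP : Q ∣ P)
    (hres : IsSquare (Q.resultant D)) (u : Fin 7 → F) :
    IsSquare (Q.resultant (-bf (gA P D 1) (gA P D 0) u u)) := by
  set ι := algebraMap F (AlgebraicClosure F)
  have hroot : ∀ α : AlgebraicClosure F, eval α (Q.map ι) = 0 → eval α (P.map ι) = 0 := by
    intro α hα
    obtain ⟨R, hR⟩ := hQP
    rw [hR, Polynomial.map_mul, eval_mul, hα, zero_mul]
  have hQD : IsCoprime Q D := hD.of_isCoprime_of_dvd_left hQP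
  exact sq_aux2 ι hQ (fun α hα => (roots_aux ι hP h7 hD (hroot α hα) u).1)
    (fun α hα => (roots_aux ι hP h7 hD (hroot α hα) u).2) hsq (gA_det_ne hP h7 hD)
    (resultant_ne_zero _ _ hQD) hres

theorem nv_aux [CharZero F] {A B T : Matrix (Fin 7) (Fin 7) F} {P D Q : F[X]} {c : F}
    (hP : P.Monic) (h7 : P.natDegree = 7)
    (hD : IsCoprime P D) (hsq : IsSquare (-(gA P D 0).det)) (hc : c ≠ 0) (hT : IsUnit T.det)
    (h1 : c • (Tᵀ * A * T) = gA P D 1) (h0 : c • (Tᵀ * B * T) = gA P D 0)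
    (hQ : Q.Monic) (hQP : Q ∣ P) (hres : IsSquare (Q.resultant D)) (u : Fin 7 → F) :
    IsSquare (Q.resultant (dm A B u)) := by
  have h2 := model_sq hP h7 hD hsq hQ hQP hres (T.det⁻¹ • (Tᵀ *ᵥ u))
  have h3 := bf_trans' A B T c (T.det⁻¹ • (Tᵀ *ᵥ u)) (T.det⁻¹ • (Tᵀ *ᵥ u)) (m := 6) rfl
  rw [h1, h0, adj_back hT.ne_zero] at h3
  have h4 := sq_unscale hc h3 h2
  rw [dm_eq]
  exact h4

end

theorem pf_NF2 : T_NF2 := by
  intro k _ _ A B hA hB hsep hdeg hNV
  obtain ⟨P, D, T, c, hPm, hPn, hPs, hD, hass, hsq, hc, hT, h1, h0⟩ :=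
    nf2_basic hA hB hsep hdeg
  refine ⟨P, D, T, c, hPm, hPn, hPs, hD, ?_, hsq, hc, hT, h1, h0⟩
  intro Q R hQ hR hQ1 hR1 hPQR hres
  have hass' := hass
  rw [hPQR] at hass'
  obtain ⟨u, hu⟩ := hNV Q R hQ hR hQ1 hR1 hass'
  exact hu (nv_aux hPm hPn hD hsq hc hT h1 h0 hQ ⟨R, hPQR⟩ hres u)

end Pool.Agent.H32.N6V
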