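import Pool.Agent.H32.N6.Top
import Pool.Agent.H32.N6V.NFC
import Pool.Agent.H32.N6V.Final2
import Pool.Agent.H34.N6V.Core
import Pool.Agent.H23.N6.InertConic
import Pool.Agent.H17.N6V.VFAM
import Pool.Agent.H1.N6V.VGF
import Pool.Agent.H50.N6V.VSEP
import Pool.Agent.H20.N6V.VTHA
import Pool.Agent.H11.N6V.VGLU
import Pool.Agent.H79.N6V.VTHF
import Pool.Agent.H89.N6V.VFF1
import Pool.Agent.H45.N6V.VFF2
import Pool.Agent.H59.N6V.VRSF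
import Pool.Agent.H45.N6V.VSQR
import Pool.Agent.H42.N6V.VFAD
import Pool.Agent.H73.N6V.VFBR
import Pool.Agent.H59.N6V.VSQW
import Pool.Agent.H43.N6V.VNRM
import Pool.Agent.H45.N6V.VCHI
import Pool.Agent.H59.N6V.VGEN
import Pool.Agent.H45.N6V.VSGU
import Pool.Agent.H17.N6V.VPSI
import Pool.Agent.H36.N6V.VINA
import Pool.Agent.H36.N6V.VINB
import Pool.Agent.H7.N6V.VADJ
import Pool.Agent.H46.N6V.GSF
import Pool.Agent.H42.N6V.VSTF
import Pool.Agent.H69.N6V.VALF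
import Pool.Agent.H20.N6V.VPAF
import Pool.Agent.H17.N6V.VDVF
import Pool.Agent.H11.N6V.VSPF

/-!
# Two quadrics in `ℙ⁶`, version 2: assembly
-/

set_option autoImplicit false

namespace Pool.Agent.H32.N6V.All2

open Pool.Agent.H13.DEV Pool.Agent.H13.N6E Pool.Agent.H34.N6 Pool.Agent.H34.N6V

theorem gf : T_GF := Pool.Agent.H1.N6V.pf_GF
theorem sep : T_SEP := Pool.Agent.H50.N6V.pf_SEP dCFI
theorem tha : T_THA := Pool.Agent.H20.N6V.pf_THA dETA dCFI dCFC dCFR dFIN dBEL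
theorem glu : T_GLU := Pool.Agent.H11.N6V.pf_GLU dHPO dPMU
theorem thf : T_THF := Pool.Agent.H79.N6V.pf_THF tha glu
theorem ff1 : T_FF1 := Pool.Agent.H89.N6V.pf_FF1
theorem ff2 : T_FF2 := Pool.Agent.H45.N6V.pf_FF2 ff1
theorem rsf : T_RSF := Pool.Agent.H59.N6V.pf_RSF
theorem sqr : T_SQR := Pool.Agent.H45.N6V.pf_SQR
theorem fad : T_FAD := Pool.Agent.H42.N6V.pf_FAD dRED dCFI dBEL dFIN
theorem fbr : T_FBR := Pool.Agent.H73.N6V.pf_FBR fad sep dCFI dBEL dFIN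
theorem sqw : T_SQW := Pool.Agent.H59.N6V.pf_SQW dCFI dHEN dBEL
theorem nrm : T_NRM := Pool.Agent.H43.N6V.pf_NRM rsf sqr fbr sqw ff2
theorem chi : T_CHI := Pool.Agent.H45.N6V.pf_CHI rsf sqr
theorem gen : T_GEN := Pool.Agent.H59.N6V.pf_GEN
theorem sgu : T_SGU := Pool.Agent.H45.N6V.pf_SGU dFIN
theorem psi : T_PSI := Pool.Agent.H17.N6V.pf_PSI gf nrm chi Pool.Agent.H23.N6.pf_INERT
theorem ina : T_INA := Pool.Agent.H36.N6V.pf_INA dBEL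
theorem inb : T_INB := Pool.Agent.H36.N6V.pf_INB fad dBEL dFIN
theorem adj : T_ADJ := Pool.Agent.H7.N6V.pf_ADJ gen psi nrm ina inb sgu dFIN
theorem gsf : T_GSF := Pool.Agent.H46.N6V.pf_GSF fad dBEL
theorem stf : T_STF := Pool.Agent.H42.N6V.pf_STF dSTP dBEL dFIN
theorem alf : T_ALF := Pool.Agent.H69.N6V.pf_ALF dNRT dHOM dBEL
theorem spf : T_SPF := Pool.Agent.H11.N6V.pf_SPF
theorem paf : T_PAF := Pool.Agent.H20.N6V.pf_PAF spf thf alf gsf stf dFIB dBD1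
  dIPL dBD2 dBD3 dNRT dFIN dBEL gf
theorem dvf : T_DVF := Pool.Agent.H17.N6V.pf_DVF dEXA adj paf spf thf alf
  dODF
theorem cor2 : T_COR2 := pf_COR2 Pool.Agent.H23.QCF.LA.adc
  Pool.Agent.H32.N6.AllIrr.odc Pool.Agent.H32.N6.AllIrr.lfm Pool.Agent.H70.N6.pf_LR dev
  Pool.Agent.H5.QH.All.split7 Pool.Agent.H32.N6.AllB.gb1 Pool.Agent.H32.N6.AllB.gb2
  Pool.Agent.H18.N6F.All.f2s dSPP dvf Pool.Agent.H32.N6.AllB.gb3 spf
  Pool.Agent.H17.N6V.pf_FAM gf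
theorem mai2 : T_MAI2 := pf_MAI2 pf_NF2 cor2

end Pool.Agent.H32.N6V.All2
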