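import Pool.Agent.H69.N6B.BG1
import Pool.Agent.H34.N6V.TargetsN

/-!
# Good places, the parameter near infinity
-/

set_option autoImplicit false

open Polynomial NumberField IsDedekindDomain Matrix Pool.Agent.H32.QC Pool.Agent.H34.N6
  Pool.Agent.H32.N6 Pool.Agent.H34.N6V

namespace Pool.Agent.H32.N6V

open Pool.Agent.H69.N6B (step ne_of_norm coeff_int norm_sub_le_one)

theorem norm_eval_far {F : Type} [NormedField F] [IsUltrametricDist F] {P : F[X]}
    (hP : P.Monic) (hPi : ∀ i, ‖P.coeff i‖ ≤ 1) {t : F} (ht : 1 < ‖t‖) :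
    ‖eval t P‖ = ‖t‖ ^ P.natDegree := by
  have h1 := hP.as_sum
  have h2 : eval t P = t ^ P.natDegree + ∑ i ∈ Finset.range P.natDegree, P.coeff i * t ^ i := by
    conv_lhs => rw [h1]
    rw [eval_add, eval_pow, eval_X, eval_finsetSum]
    congr 1
    refine Finset.sum_congr rfl fun i _ => ?_
    rw [eval_mul, eval_C, eval_pow, eval_X]
  by_cases hn : P.natDegree = 0
  · rw [h2, hn, Finset.range_zero, Finset.sum_empty, pow_zero, pow_zero, add_zero, norm_one]
  have h3 : ‖∑ i ∈ Finset.range P.natDegree, P.coeff i * t ^ i‖ ≤ ‖t‖ ^ (P.natDegree - 1) := by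
    refine IsUltrametricDist.norm_sum_le_of_forall_le_of_nonneg (by positivity) fun i hi => ?_
    rw [norm_mul, norm_pow]
    calc ‖P.coeff i‖ * ‖t‖ ^ i ≤ 1 * ‖t‖ ^ (P.natDegree - 1) := by
          apply mul_le_mul (hPi i) _ (by positivity) zero_le_one
          apply pow_le_pow_right₀ ht.le
          have := Finset.mem_range.1 hi
          omega
      _ = ‖t‖ ^ (P.natDegree - 1) := one_mul _
  have h4 : ‖t‖ ^ (P.natDegree - 1) < ‖t ^ P.natDegree‖ := by
    rw [norm_pow]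
    apply pow_lt_pow_right₀ ht
    omega
  have h5 := h3.trans_lt h4
  rw [h2, IsUltrametricDist.norm_add_eq_max_of_norm_ne_norm h5.ne', max_eq_left h5.le, norm_pow]

theorem ti_smul {F : Type} [Field F] {n r : ℕ} {A : Matrix (Fin n) (Fin n) F} (c : F)
    (h : TI A r) : TI (c • A) r := by
  obtain ⟨b, hb, h0⟩ := h
  refine ⟨b, hb, fun i j => ?_⟩
  rw [Matrix.smul_mulVec, dotProduct_smul, h0, smul_zero]

theorem det_smul7' {F : Type} [Field F] (s : F) (G : Matrix (Fin 7) (Fin 7) F) :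
    (s • G).det = s ^ 7 * G.det := by
  rw [Matrix.det_smul, Fintype.card_fin]

theorem pf_GB3 (hBDG : T_BDG) (hBTD : T_BTD) (hBDE : T_BDE) (hBUD : T_BUD) (hBIN : T_BIN)
    (hTIC : Pool.Agent.H32.SAB.T_TIC) : T_GB3 := by
  intro F _ _ _ _ P D t h2 hP h7 hPi hDi hsep hcop ht
  have hud : ‖(gA P D 0).det‖ = 1 := hBUD F P D hP h7 hPi hDi hcop
  have ht0 : t ≠ 0 := by
    rintro rfl
    rw [norm_zero] at ht
    linarith
  have hPt := norm_eval_far hP hPi ht
  rw [h7] at hPt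
  set U : Matrix (Fin 7) (Fin 7) F := gA P D 0 - t⁻¹ • gA P D 1 with hU
  have hft : ft P D t = (-t) • U := by
    unfold ft
    rw [hU, smul_sub, smul_smul, neg_mul, mul_inv_cancel₀ ht0, neg_smul, neg_smul, one_smul,
      sub_neg_eq_add, add_comm, ← sub_eq_add_neg]
  have hdet : ‖U.det‖ = 1 := by
    have h3 := hBDE F P D t hP h7
    rw [hft, det_smul7'] at h3
    have h4 := congrArg norm h3
    rw [norm_mul, norm_mul, norm_pow, norm_neg, norm_neg, hPt, hud, mul_one] at h4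
    have h5 : ‖t‖ ^ 7 ≠ 0 := by positivity
    exact mul_left_cancel₀ h5 (by rw [h4, mul_one])
  have hsymm : U.IsSymm := (gA_symm P D 0).sub ((gA_symm P D 1).smul t⁻¹)
  obtain ⟨C0, u, hC0, hu, hdiag⟩ := hBDG F h2 7 U hsymm (by
      intro i j
      have hg : ∀ s, ‖gA P D s i j‖ ≤ 1 := fun s =>
        hBIN F P (D * X ^ ((i : ℕ) + (j : ℕ) + s)) hP hPi (coeff_int D hDi _)
      show ‖gA P D 0 i j - (t⁻¹ • gA P D 1) i j‖ ≤ 1
      refine norm_sub_le_one (hg 0) ?_
      show ‖t⁻¹ * gA P D 1 i j‖ ≤ 1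
      rw [norm_mul, norm_inv]
      exact mul_le_one₀ (inv_le_one_of_one_le₀ ht.le) (norm_nonneg _) (hg 1)) hdet
  have hvec : u = ![u 0, u 1, u 2, u 3, u 4, u 5, u 6] := by
    funext i
    fin_cases i <;> rfl
  rw [hft]
  apply ti_smul
  refine (hTIC F 7 3 U C0 hC0).1 ?_
  rw [hdiag, hvec]
  refine (step hBTD h2 _ _ _ _ _ _ _ (hu 0) (hu 1) (hu 2) (hu 3) (hu 4)
    (ne_of_norm (hu 5)) (ne_of_norm (hu 6))).2 ?_
  have hp1 : ‖u 0 * u 1 * u 2 * u 3 * u 4‖ = 1 := by
    simp only [norm_mul, hu, mul_one]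
  have h := hBTD F h2 0 ![u 0 * u 1 * u 2 * u 3 * u 4, u 5, u 6] (by
    intro i
    fin_cases i
    · exact ne_of_norm hp1
    · exact ne_of_norm (hu 5)
    · exact ne_of_norm (hu 6)) hp1 (hu 5) (hu 6) 0
  refine h.2 ⟨fun i => i.elim0, linearIndependent_empty_type, fun i => i.elim0⟩

end Pool.Agent.H32.N6V
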