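import Pool.Agent.H32.N6.Final
import Pool.Agent.H32.N6V.NF2

/-!
# Smooth intersections of two quadrics have a separable discriminant
-/

set_option autoImplicit false

open Polynomial Matrix Pool.Agent.H34.N6 Pool.Agent.H32.N6

namespace Pool.Agent.H32.N6V

section

variable {E : Type} [Field E] {n : ℕ}

theorem pair_zero [IsAlgClosed E] {B : Matrix (Fin n) (Fin n) E}
    (hB : B.IsSymm) {p q : Fin n → E} (hpq : LinearIndependent E ![p, q]) :
    ∃ a b : E, a • p + b • q ≠ 0 ∧ (a • p + b • q) ⬝ᵥ (B *ᵥ (a • p + b • q)) = 0 := by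
  have hp : p ≠ 0 := hpq.ne_zero 0
  rw [LinearIndependent.pair_iff] at hpq
  by_cases h0 : p ⬝ᵥ (B *ᵥ p) = 0
  · refine ⟨1, 0, ?_, ?_⟩
    · rw [one_smul, zero_smul, add_zero]
      exact hp
    · rw [one_smul, zero_smul, add_zero]
      exact h0
  · have hsymm : q ⬝ᵥ (B *ᵥ p) = p ⬝ᵥ (B *ᵥ q) := by
      rw [dotProduct_mulVec, ← Matrix.mulVec_transpose, hB.eq, dotProduct_comm]
    set c₁ := p ⬝ᵥ (B *ᵥ p) with hc₁
    set c₂ := p ⬝ᵥ (B *ᵥ q) with hc₂
    set c₃ := q ⬝ᵥ (B *ᵥ q) with hc₃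
    obtain ⟨a, ha⟩ := IsAlgClosed.exists_root (C c₁ * X ^ 2 + C (2 * c₂) * X + C c₃) (by
      rw [degree_quadratic h0]
      norm_num)
    have ha' : c₁ * a ^ 2 + 2 * c₂ * a + c₃ = 0 := by
      have := ha.eq_zero
      simpa using this
    refine ⟨a, 1, ?_, ?_⟩
    · intro h
      exact one_ne_zero (hpq a 1 h).2
    · rw [one_smul, Matrix.mulVec_add, Matrix.mulVec_smul, add_dotProduct, dotProduct_add,
        dotProduct_add, smul_dotProduct, smul_dotProduct, dotProduct_smul, dotProduct_smul,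
        hsymm]
      simp only [smul_eq_mul]
      rw [← hc₁, ← hc₂, ← hc₃]
      linear_combination ha'

/-- a singular zero at a double root -/
theorem exists_sing [IsAlgClosed E] {A B : Matrix (Fin n) (Fin n) E}
    (hA : A.IsSymm) (hB : B.IsSymm) (hdet : B.det ≠ 0) {α : E}
    (hα : 2 ≤ (B⁻¹ * A).charpoly.rootMultiplicity α) :
    ∃ x : Fin n → E, x ≠ 0 ∧ A *ᵥ x = α • (B *ᵥ x) ∧ x ⬝ᵥ (B *ᵥ x) = 0 := by
  set T : Module.End E (Fin n → E) := Matrix.toLin' (B⁻¹ * A) with hT
  have hu : IsUnit B.det := isUnit_iff_ne_zero.2 hdet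
  have hN : ∀ y : Fin n → E, (T - α • (1 : Module.End E (Fin n → E))) y =
      (B⁻¹ * A) *ᵥ y - α • y := by
    intro y
    rw [LinearMap.sub_apply, LinearMap.smul_apply, hT, Matrix.toLin'_apply]
    rfl
  have hBN : ∀ y : Fin n → E, B *ᵥ ((T - α • (1 : Module.End E (Fin n → E))) y) =
      A *ᵥ y - α • (B *ᵥ y) := by
    intro y
    rw [hN, Matrix.mulVec_sub, Matrix.mulVec_mulVec, Matrix.mul_nonsing_inv_cancel_left _ _ hu,
      Matrix.mulVec_smul]
  have hker : ∀ y : Fin n → E, (T - α • (1 : Module.End E (Fin n → E))) y = 0 →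
      A *ᵥ y = α • (B *ᵥ y) := by
    intro y hy
    have := hBN y
    rw [hy, Matrix.mulVec_zero] at this
    exact sub_eq_zero.1 this.symm
  by_cases hc : ∃ y : Fin n → E,
      (T - α • (1 : Module.End E (Fin n → E))) ((T - α • (1 : Module.End E (Fin n → E))) y) = 0 ∧
        (T - α • (1 : Module.End E (Fin n → E))) y ≠ 0
  · obtain ⟨y, hy1, hy2⟩ := hc
    set x := (T - α • (1 : Module.End E (Fin n → E))) y with hx
    refine ⟨x, hy2, hker x hy1, ?_⟩
    have h1 := hBN y
    rw [← hx] at h1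
    rw [h1, dotProduct_sub, dotProduct_smul, dotProduct_mulVec, ← Matrix.mulVec_transpose,
      hA.eq, dotProduct_mulVec x B, ← Matrix.mulVec_transpose, hB.eq, hker x hy1,
      smul_dotProduct, sub_self]
  · push Not at hc
    have hker' : ∀ (m : ℕ) (v : Fin n → E),
        ((T - α • (1 : Module.End E (Fin n → E))) ^ (m + 1)) v = 0 →
        (T - α • (1 : Module.End E (Fin n → E))) v = 0 := by
      intro m
      induction m with
      | zero =>
        intro v hv
        rw [zero_add, pow_one] at hv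
        exact hv
      | succ m ih =>
        intro v hv
        rw [pow_succ, Module.End.mul_apply] at hv
        exact hc v (ih _ hv)
    have hfin : 2 ≤ Module.finrank E (T.maxGenEigenspace α) := by
      rw [LinearMap.finrank_maxGenEigenspace_eq, hT, Matrix.charpoly_toLin']
      exact hα
    obtain ⟨p₀, hp₀⟩ : ∃ p₀ : T.maxGenEigenspace α, p₀ ≠ 0 := by
      have : Nontrivial (T.maxGenEigenspace α) := Module.nontrivial_of_finrank_pos (R := E)
        (by omega)
      exact exists_ne 0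
    obtain ⟨q₀, hq₀⟩ := exists_linearIndependent_pair_of_one_lt_finrank
      (show 1 < Module.finrank E (T.maxGenEigenspace α) by omega) hp₀
    have hpq : LinearIndependent E ![(p₀ : Fin n → E), (q₀ : Fin n → E)] := by
      rw [LinearIndependent.pair_iff] at hq₀ ⊢
      intro s t hst
      exact hq₀ s t (Subtype.ext (by simpa using hst))
    have hz : ∀ w : T.maxGenEigenspace α,
        (T - α • (1 : Module.End E (Fin n → E))) (w : Fin n → E) = 0 := by
      intro w
      obtain ⟨m, hm⟩ := (Module.End.mem_maxGenEigenspace T α _).1 w.2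
      cases m with
      | zero =>
        rw [pow_zero, Module.End.one_apply] at hm
        rw [hm, map_zero]
      | succ m => exact hker' m _ hm
    obtain ⟨a, b, hab, hB0⟩ := pair_zero hB hpq
    refine ⟨_, hab, ?_, hB0⟩
    apply hker
    rw [map_add, map_smul, map_smul, hz, hz, smul_zero, smul_zero, add_zero]

theorem sep_of_smooth [IsAlgClosed E] {A B : Matrix (Fin n) (Fin n) E}
    (hA : A.IsSymm) (hB : B.IsSymm) (hdet : B.det ≠ 0)
    (h : ∀ x : Fin n → E, x ≠ 0 → x ⬝ᵥ A *ᵥ x = 0 → x ⬝ᵥ B *ᵥ x = 0 →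
      LinearIndependent E ![A *ᵥ x, B *ᵥ x]) : (B⁻¹ * A).charpoly.Separable := by
  classical
  have hm : (B⁻¹ * A).charpoly.Monic := Matrix.charpoly_monic _
  rw [← nodup_roots_iff_of_splits hm.ne_zero (IsAlgClosed.splits _),
    Multiset.nodup_iff_count_le_one]
  intro α
  rw [count_roots]
  by_contra hcon
  push Not at hcon
  obtain ⟨x, hx, h1, h3⟩ := exists_sing hA hB hdet (α := α) hcon
  have h4 : x ⬝ᵥ A *ᵥ x = 0 := by
    rw [h1, dotProduct_smul, h3, smul_zero]
  have h5 := h x hx h4 h3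
  rw [LinearIndependent.pair_iff] at h5
  have h6 := h5 1 (-α) (by rw [h1, one_smul, neg_smul, add_neg_cancel])
  exact one_ne_zero h6.1

end

section

variable {F : Type} [Field F] {n : ℕ}

theorem disc_sep {E : Type} [Field E] [IsAlgClosed E] (φ : F →+* E)
    {A B : Matrix (Fin n) (Fin n) F} (hA : A.IsSymm) (hB : B.IsSymm) (hdet : B.det ≠ 0)
    (h : ∀ x : Fin n → E, x ≠ 0 → x ⬝ᵥ (A.map φ) *ᵥ x = 0 → x ⬝ᵥ (B.map φ) *ᵥ x = 0 →
      LinearIndependent E ![(A.map φ) *ᵥ x, (B.map φ) *ᵥ x]) :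
    (A.map (C : F →+* F[X]) - (X : F[X]) • B.map (C : F →+* F[X])).det.Separable := by
  have hdet' : (B.map φ).det ≠ 0 := by
    have h1 : (B.map φ).det = φ B.det := (RingHom.map_det φ B).symm
    rw [h1]
    exact (map_ne_zero φ).2 hdet
  have h3 := sep_of_smooth (symm_map φ hA) (symm_map φ hB) hdet' h
  have h4 := h3.of_dvd (ass_char (A := A.map φ) hdet').symm.dvd
  rw [det_up φ A B] at h4
  exact (separable_map φ).1 h4

end

end Pool.Agent.H32.N6V
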